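import Pool.Agent.Helper58.RK.Main

/-! Project IC (MP_1bacb5_al): conjugation-invariant chains of subgroups, definitions. -/

set_option autoImplicit false

universe u

namespace Pool.Agent.Helper65.IC

open Subgroup

section

variable {G : Type u} [Group G]

/-- the conjugate subgroup `g C g⁻¹` -/
def cj (g : G) (C : Subgroup G) : Subgroup G := C.map (MulAut.conj g).toMonoidHom

/-- a chain of subgroups which is closed under conjugation -/
structure IChain (S : Set (Subgroup G)) : Prop where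
  chain : ∀ A ∈ S, ∀ B ∈ S, A ≤ B ∨ B ≤ A
  inv : ∀ g : G, ∀ A ∈ S, cj g A ∈ S

/-- `(D, C)` is a jump of `S` with torsion-free factor `C / D` -/
structure Jmp (S : Set (Subgroup G)) (D C : Subgroup G) : Prop where
  hD : D ∈ S
  hC : C ∈ S
  le : D ≤ C
  cmp : ∀ E ∈ S, E ≤ D ∨ C ≤ E
  norm : ∀ c ∈ C, ∀ d ∈ D, c * d * c⁻¹ ∈ D
  tf : ∀ a ∈ C, ∀ n : ℕ, 0 < n → a ^ n ∈ D → a ∈ D

/-- a subgroup of the normaliser of `C` of index at most `m` acts on `C / D` as a soluble group
of derived length at most `d` -/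
def Acts (D C : Subgroup G) (m d : ℕ) : Prop :=
  ∃ N : Subgroup G, N ≤ normalizer C ∧ N.relIndex (normalizer C) ≠ 0 ∧
    N.relIndex (normalizer C) ≤ m ∧
    ∀ g ∈ (derivedSeries N d).map N.subtype, ∀ a ∈ C, a * g * a⁻¹ * g⁻¹ ∈ D

end

end Pool.Agent.Helper65.IC
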