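import Pool.Agent.Helper65.IC.St

/-! Project IC (MP_1bacb5_al): assembly. -/

set_option autoImplicit false

universe u

namespace Pool.Agent.Helper65.IC

open Subgroup Pool.Agent.Helper58.RK
open scoped Nat

section

variable {G : Type u} [Group G]

theorem mem_cj {g x : G} {C : Subgroup G} : x ∈ cj g C ↔ g⁻¹ * x * g ∈ C := by
  constructor
  · rintro ⟨y, hy, rfl⟩
    have : g⁻¹ * (g * y * g⁻¹) * g = y := by group
    change g⁻¹ * (g * y * g⁻¹) * g ∈ C
    rw [this]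
    exact hy
  · intro h
    refine ⟨g⁻¹ * x * g, h, ?_⟩
    change g * (g⁻¹ * x * g) * g⁻¹ = x
    group

theorem cj_mono {g : G} {A B : Subgroup G} (h : A ≤ B) : cj g A ≤ cj g B := fun _ hx =>
  mem_cj.2 (h (mem_cj.1 hx))

theorem cj_inv_cj (g : G) (A : Subgroup G) : cj g⁻¹ (cj g A) = A := by
  ext x
  rw [mem_cj, mem_cj]
  have : g⁻¹ * (g⁻¹⁻¹ * x * g⁻¹) * g = x := by group
  rw [this]

theorem cj_cj_inv (g : G) (A : Subgroup G) : cj g (cj g⁻¹ A) = A := by
  ext x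
  rw [mem_cj, mem_cj]
  have : g⁻¹⁻¹ * (g⁻¹ * x * g) * g⁻¹ = x := by group
  rw [this]

end

/-- finiteness of a chain in which there are no long strictly increasing sequences -/
theorem chain_finite {α : Type u} [PartialOrder α] (S : Set α)
    (hS : ∀ x ∈ S, ∀ y ∈ S, x ≤ y ∨ y ≤ x) (N : ℕ)
    (h : ∀ L : ℕ → α, (∀ i, L i ∈ S) → Monotone L → ∀ n : ℕ, (∀ i < n, L i < L (i + 1)) → n ≤ N) :
    S.Finite ∧ S.ncard ≤ N + 1 := by
  classical
  let lo : LinearOrder S :=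
    { (inferInstance : PartialOrder S) with
      le_total := fun x y => hS x x.2 y y.2
      toDecidableLE := Classical.decRel _ }
  by_contra hcon
  have hex : ∃ T : Finset S, T.card = N + 2 := by
    by_cases hf : S.Finite
    · have h1 : N + 2 ≤ S.ncard := by
        by_contra h2
        exact hcon ⟨hf, by omega⟩
      have : Fintype S := hf.fintype
      have h3 : (Finset.univ : Finset S).card = S.ncard := by
        rw [Finset.card_univ, ← Nat.card_eq_fintype_card]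
        rfl
      obtain ⟨T, -, hT⟩ := Finset.exists_subset_card_eq (s := (Finset.univ : Finset S))
        (n := N + 2) (by rw [h3]; exact h1)
      exact ⟨T, hT⟩
    · have : Infinite S := Set.infinite_coe_iff.mpr hf
      exact Infinite.exists_subset_card_eq S (N + 2)
  obtain ⟨T, hT⟩ := hex
  let e := T.orderEmbOfFin hT
  have hlt : ∀ i, min i (N + 1) < N + 2 := fun i => lt_of_le_of_lt (min_le_right _ _) (by omega)
  have := h (fun i => ((e ⟨min i (N + 1), hlt i⟩ : S) : α)) (fun i => (e _).2) (fun i j hij => by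
      have : (⟨min i (N + 1), hlt i⟩ : Fin (N + 2)) ≤ ⟨min j (N + 1), hlt j⟩ := by
        show min i (N + 1) ≤ min j (N + 1)
        exact min_le_min_right _ hij
      exact e.monotone this) (N + 1) (fun i hi => by
      have h1 : (⟨min i (N + 1), hlt i⟩ : Fin (N + 2)) < ⟨min (i + 1) (N + 1), hlt (i + 1)⟩ := by
        show min i (N + 1) < min (i + 1) (N + 1)
        rw [min_eq_left (by omega), min_eq_left (by omega)]
        omega
      exact e.strictMono h1)
  omega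

theorem final (hKT : StKT.{u}) (hSP : StSP.{u}) (hQQ : StQQ.{u}) (hGP : StGP.{u})
    (G : Type u) [Group G] (r m d : ℕ) (S : Set (Subgroup G)) (hr : SRank G r) (hS : IChain S)
    (hJ : ∀ x : G, x ≠ 1 → ∃ D C, Jmp S D C ∧ x ∈ C ∧ x ∉ D ∧ Acts D C m d)
    (hQ : ∀ f : ℚ → Subgroup G, (∀ q, f q ∈ S) → ¬ StrictMono f) :
    (∀ C ∈ S, C.Normal) ∧ S.Finite ∧ S.ncard ≤ r * (d + 2 * r) + 1 ∧
    ∃ G₀ : Subgroup G, G₀.Characteristic ∧ G₀.index ≠ 0 ∧ G₀.index ≤ (m !) ^ ((m !) ^ r) ∧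
      (⊤ : Subgroup (derivedSeries G₀ d)).lowerCentralSeries (2 * r) = ⊥ ∧ HyperAb G₀ := by
  -- no member is moved
  have hmove : ∀ A ∈ S, ∀ a : G, ¬ A < cj a A := by
    intro A hA a hlt
    obtain ⟨f, hf1, hf2⟩ := hQQ (Subgroup G) S hS.chain
      (fun x y => ∃ P ∈ S, ∃ c : G, x ≤ P ∧ P < cj c P ∧ cj c P ≤ y)
      (by
        rintro x y x' y' hx hy ⟨P, hP, c, h1, h2, h3⟩
        exact ⟨P, hP, c, hx.trans h1, h2, h3.trans hy⟩)
      (by
        rintro x hx y hy hxy ⟨P, hP, c, h1, h2, h3⟩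
        obtain ⟨c₁, I, hI, ⟨m', n', h4, h5⟩, h6⟩ := hGP G r m d S hr hS hJ P hP c h2
        obtain ⟨c', P', hP', h7, h8, h9, h10⟩ := hSP G S hS P hP c h2 c₁ I hI m' n' h4 h5 h6
        refine ⟨cj c' P', hS.inv c' P' hP', lt_of_le_of_lt (h1.trans h7) h8,
          lt_of_lt_of_le h9 (h10.trans h3), ⟨P', hP', c', h1.trans h7, h8, le_rfl⟩,
          ⟨cj c' P', hS.inv c' P' hP', c', le_rfl, h9, h10.trans h3⟩⟩)
      ⟨A, hA, cj a A, hS.inv a A hA, hlt, A, hA, a, le_rfl, hlt, le_rfl⟩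
    exact hQ f hf1 hf2
  have hfix : ∀ A ∈ S, ∀ a : G, cj a A = A := by
    intro A hA a
    rcases hS.chain A hA _ (hS.inv a A hA) with h | h
    · by_contra hne
      exact hmove A hA a (lt_of_le_of_ne h fun h' => hne h'.symm)
    · have h1 : A ≤ cj a⁻¹ A := by
        have := cj_mono (g := a⁻¹) h
        rwa [cj_inv_cj] at this
      have h2 : A = cj a⁻¹ A := by
        by_contra hne
        exact hmove A hA a⁻¹ (lt_of_le_of_ne h1 hne)
      have h3 : cj a A = cj a (cj a⁻¹ A) := by rw [← h2]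
      rw [h3, cj_cj_inv]
  have hnorm : ∀ C ∈ S, C.Normal := by
    intro C hC
    refine ⟨fun n hn g => ?_⟩
    have h1 : g * n * g⁻¹ ∈ cj g C := by
      rw [mem_cj]
      have : g⁻¹ * (g * n * g⁻¹) * g = n := by group
      rw [this]
      exact hn
    rwa [hfix C hC g] at h1
  have hjump : ∀ x : G, x ≠ 1 → ∃ D ∈ S, ∃ C ∈ S, x ∈ C ∧ x ∉ D ∧ D ≤ C ∧
      (∀ E ∈ S, E ≤ D ∨ C ≤ E) ∧
      (∀ a ∈ C, ∀ n : ℕ, 0 < n → a ^ n ∈ D → a ∈ D) ∧
      ∃ N : Subgroup G, N.index ≠ 0 ∧ N.index ≤ m ∧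
        ∀ g ∈ (derivedSeries N d).map N.subtype, ∀ a ∈ C, a * g * a⁻¹ * g⁻¹ ∈ D := by
    intro x hx
    obtain ⟨D, C, hDC, hxC, hxD, N, hN1, hN2, hN3, hN4⟩ := hJ x hx
    have := hnorm C hDC.hC
    have htop : normalizer (C : Set G) = ⊤ := normalizer_eq_top C
    rw [htop, relIndex_top_right] at hN2 hN3
    exact ⟨D, hDC.hD, C, hDC.hC, hxC, hxD, hDC.le, hDC.cmp, hDC.tf, N, hN2, hN3, hN4⟩
  obtain ⟨hfin, hcard⟩ := chain_finite S hS.chain (r * (d + 2 * r)) (fun L hL hmono n hn =>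
    hKT G r m d S hr hnorm hjump L hL hmono n (fun i hi => by
      have := (hn i hi).not_ge
      rw [SetLike.le_def] at this
      push Not at this
      exact this))
  exact ⟨hnorm, hfin, hcard, main_chain r m d S hr hnorm hjump⟩

end Pool.Agent.Helper65.IC
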