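import Pool.Agent.Helper65.IC.Defs

/-!
# Project IC (MP_1bacb5_al): statements with complete proofs

Useful: `Pool.Agent.Helper58.RK` (SRank, SRank.pull, rank_lemma, main_chain, derivedSeries_add, derivedSeries_of_lcs,
HyperAb).
-/

set_option autoImplicit false

universe u

namespace Pool.Agent.Helper65.IC

open Subgroup Pool.Agent.Helper58.RK
open scoped Nat

/-- JB (number of jumps in a soluble group of rank `r`).  PROOF.  Induction on `k`, for all `H`.  `k = 0`: `H` is
trivial, `h i = 1 ∈ L i`, so `s` is empty.  `k + 1`: let `A = derivedSeries H k`; it is normal, and abelian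
(`⁅A, A⁆ = derivedSeries H (k + 1) = ⊥`).  Let `I` be the set of the `i ∈ s` for which there is `a ∈ A ∩ L (i + 1)` with `a ^ t ∉ L i`
for all `t > 0`.  (1) `I.card ≤ r`: if `I` has `r + 1` elements `i_0 > i_1 > ... > i_r` (`Finset.orderEmbOfFin`, reversed) use
`rank_lemma` (Helper58.RK.Central) with `a j` = the element for `i_j`, `E j = L (i_j)`: the commutators are `1`, and
for `j < j'` one has `a j' ∈ L (i_j' + 1) ≤ L (i_j)`.  (2) The images `h i` (`i ∈ s \ I`) in `H ⧸ A` satisfy the hypotheses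
with `L' i = (L i).map (QuotientGroup.mk' A)`: if `(h i) ^ t = l * a` with `l ∈ L i`, `a ∈ A`, `t > 0`, then
`a = l⁻¹ * (h i) ^ t ∈ L (i + 1)`, so, as `i ∉ I`, `a ^ n ∈ L i` for some `n > 0`; modulo the normal subgroup `L i` one has
`(h i) ^ (t * n) = (l * a) ^ n ≡ a ^ n ≡ 1`, so `(h i) ^ (t * n) ∈ L i`, contradiction.  `derivedSeries (H ⧸ A) k = ⊥`
(`map_derivedSeries_eq` for the surjection), and `SRank` passes to quotients (lift generators).  So `(s \ I).card ≤ r * k`. -/
def StJB : Prop :=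
  ∀ (H : Type u) [Group H] (k r : ℕ), SRank H r → derivedSeries H k = ⊥ →
    ∀ (L : ℕ → Subgroup H), (∀ i, (L i).Normal) → Monotone L → ∀ (s : Finset ℕ) (h : ℕ → H),
    (∀ i ∈ s, h i ∈ L (i + 1) ∧ ∀ t : ℕ, 0 < t → h i ^ t ∉ L i) → s.card ≤ r * k

/-- KT (number of members of a normal system).  PROOF.  `main_chain` (Helper58.RK.Main) gives `G₀` of finite index `e ≠ 0` with
`derivedSeries G₀ (d + 2 * r) = ⊥` (`derivedSeries_add`, `derivedSeries_of_lcs`).  For `i < n` let `x i ∈ L (i + 1)`, `x i ∉ L i`, so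
`x i ≠ 1`; let `(D, C)` be its jump.  `L i ≤ D` or `C ≤ L i`, the second is impossible since `x i ∈ C`; so `x i ^ t ∉ L i` for all `t > 0`
(otherwise it is in `D`, so `x i ∈ D`).  Let `h i = (x i) ^ e ∈ G₀` (`G₀` is normal since characteristic;
`Subgroup.pow_index_mem`).  Apply `StJB` to `G₀`, `(L i).subgroupOf G₀` (`SRank.pull`), `s = Finset.range n`. -/
def StKT : Prop :=
  ∀ (H : Type u) [Group H] (r m d : ℕ) (S : Set (Subgroup H)), SRank H r → (∀ N ∈ S, N.Normal) →
    (∀ x : H, x ≠ 1 → ∃ D ∈ S, ∃ C ∈ S, x ∈ C ∧ x ∉ D ∧ D ≤ C ∧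
      (∀ E ∈ S, E ≤ D ∨ C ≤ E) ∧
      (∀ a ∈ C, ∀ n : ℕ, 0 < n → a ^ n ∈ D → a ∈ D) ∧
      ∃ N : Subgroup H, N.index ≠ 0 ∧ N.index ≤ m ∧
        ∀ g ∈ (derivedSeries N d).map N.subtype, ∀ a ∈ C, a * g * a⁻¹ * g⁻¹ ∈ D) →
    ∀ (L : ℕ → Subgroup H), (∀ i, L i ∈ S) → Monotone L → ∀ n : ℕ,
    (∀ i < n, ∃ x ∈ L (i + 1), x ∉ L i) → n ≤ r * (d + 2 * r)

/-- SP (three conjugates between `A` and `a A a⁻¹`).  PROOF.  Write `A_k = cj (a ^ k) A` (`k ∈ ℤ`), strictly increasing in `k`
(`cj` is an action and strictly monotone in the subgroup).  `c ∉ I` (an element of `I` normalises `I`), so `I ≤ A_n`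
(`A_n ≤ I` would give `c ∈ I`).  `I` and `cj c I` are comparable; replacing `c` by `c⁻¹` we may assume `I < cj c I`.  Let
`p t = cj (c ^ t) I`, strictly increasing, `p t ∈ S`, `p t ≤ A_n` as `cj c A_n = A_n`.  The set of the `k ∈ ℤ` such that `A_k ≤ p t` for some
`t` contains `m` and is bounded above by `n`; let `k` be its maximum (`Int.exists_greatest_of_bdd`), `A_k ≤ p t₀`.  For `t ≥ t₀`
one has `A_k ≤ p t`, and `p t ≤ A_(k+1)` (chain, maximality).  Take `P = cj (a ^ (-k)) (p t₀)`, `c' = a ^ (-k) * c * a ^ k`. -/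
def StSP : Prop :=
  ∀ (G : Type u) [Group G] (S : Set (Subgroup G)), IChain S → ∀ A ∈ S, ∀ a : G, A < cj a A →
    ∀ (c : G) (I : Subgroup G), I ∈ S → ∀ m n : ℤ, cj (a ^ m) A ≤ I → c ∈ cj (a ^ n) A →
    cj c I ≠ I →
    ∃ (c' : G) (P : Subgroup G), P ∈ S ∧ A ≤ P ∧ P < cj c' P ∧ cj c' P < cj c' (cj c' P) ∧
      cj c' (cj c' P) ≤ cj a A

/-- QQ (a splitting relation gives a copy of the rationals).  PROOF.  Zorn's lemma (`zorn_subset_nonempty`) for the family of
the sets `T ⊆ S` such that `R x y` for all `x < y` in `T`, containing `{x₀, y₀}` with `R x₀ y₀`, `x₀ < y₀`: there is a maximal such `T`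
containing `x₀`, `y₀`.  `T` is densely ordered: suppose `x < y` in `T` and no element of `T` lies strictly between.  By hypothesis there
is `l ∈ S`, `x < l < y`, `R x l`, `R l y`.  `T ∪ {l}` has the property: for `z ∈ T`, `z < l` implies `z ≤ x` (otherwise `x < z`, as `S` is a chain,
and `z < y`, contradiction), so `R z l` by monotonicity; for `z ∈ T`, `l < z` implies `y ≤ z`, so `R l z`.  By maximality `l ∈ T`,
contradiction.  So `T` (with the linear order from the chain property) is densely ordered and nontrivial, and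
`Order.embedding_from_countable_to_dense ℚ T` gives `ℚ ↪o T`. -/
def StQQ : Prop :=
  ∀ (α : Type u) [PartialOrder α] (S : Set α), (∀ x ∈ S, ∀ y ∈ S, x ≤ y ∨ y ≤ x) →
    ∀ R : α → α → Prop, (∀ x y x' y', x' ≤ x → y ≤ y' → R x y → R x' y') →
    (∀ x ∈ S, ∀ y ∈ S, x < y → R x y → ∃ l ∈ S, x < l ∧ l < y ∧ R x l ∧ R l y) →
    (∃ x ∈ S, ∃ y ∈ S, x < y ∧ R x y) →
    ∃ f : ℚ → α, (∀ q, f q ∈ S) ∧ StrictMono f

/-- GP (a locally trivial action on the hull of an orbit is impossible).  PROOF.  Suppose that every `c ∈ A_n` (some `n`; `A_k = cj (a ^ k) A`)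
fixes every `I ∈ S` with `A_m ≤ I` (some `m`).  Choose `b ∈ cj a A`, `b ∉ A`, `b n = a ^ n * b * a ^ (-n)`, so `b n ∈ A_(n+1)`, `b n ∉ A_n`.  Let
`B = closure {b n | n ∈ ℤ}` and `Z = ⨅ n, A_n`.  Every `b n`, so all of `B`, normalises every `I ∈ S` which contains some `A_m`
(the normaliser is a subgroup), in particular all `A_m` and so `Z`.  Let `B' = B ⧸ Z.subgroupOf B` and let `S'` be the set of the images
in `B'` of `I.subgroupOf B`, `I ∈ S`, `A_m ≤ I` for some `m`; these are normal in `B'`.  `SRank B' r` (subgroup and quotient).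
Jumps: let `x' ≠ 1` in `B'`, `x' = image of y ∈ B \ Z`; then `y ∉ A_m` for some `m`.  Let `(D, C)` be the jump of `y`; `A_m ≤ D` or `C ≤ A_m`, the
second is impossible.  So `D, C` contain `A_m`, their images `D' ≤ C'` are in `S'`, and the conditions of `StKT` hold: as `Z ≤ D`, an element
of `B` is mapped into `D'` iff it is in `D`; comparability from `Jmp.cmp`; torsion-free; if `N ≤ normalizer C` is as in `Acts`, then
`B ≤ normalizer C`, so `N.subgroupOf B` has index `N.relIndex B ≤ m`, not zero (`relIndex` in the smaller group, e.g. `relIndex_inf_..`,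
`Subgroup.relIndex_le_of_le_right`, `relIndex_ne_zero..`), its image `N'` in `B'` has index `≤ m`, not zero, and elements of the `d`-th derived
subgroup of `N'` are images of elements of the `d`-th derived subgroup of `N.subgroupOf B`, which are in the `d`-th derived
subgroup of `N`.  Now `L i =` image of `A_i` (`i ∈ ℕ`) and the images of `b i` contradict `StKT` with
`n = r * (d + 2 * r) + 1`.  (Uses `StKT` as a hypothesis.) -/
def StGP : Prop :=
  ∀ (G : Type u) [Group G] (r m d : ℕ) (S : Set (Subgroup G)), SRank G r → IChain S →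
    (∀ x : G, x ≠ 1 → ∃ D C, Jmp S D C ∧ x ∈ C ∧ x ∉ D ∧ Acts D C m d) →
    ∀ A ∈ S, ∀ a : G, A < cj a A →
    ∃ (c : G) (I : Subgroup G), I ∈ S ∧ (∃ m n : ℤ, cj (a ^ m) A ≤ I ∧ c ∈ cj (a ^ n) A) ∧
      cj c I ≠ I

end Pool.Agent.Helper65.IC
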