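import Pool.Agent.Helper65.IC.Defs

/-!
# Project IC (MP_1bacb5_al): the convex subgroups of a bi-ordered group
-/

set_option autoImplicit false

universe u

namespace Pool.Agent.Helper65.IC

open Subgroup

/-- BO (convex subgroups of a bi-ordered group).  PROOF.  Let `|a| = max a a⁻¹ ≥ 1`.  For convex `C`: `a ∈ C` iff `|a| ∈ C`, and
`1 ≤ b ≤ |a|`, `a ∈ C` imply `b ∈ C`.  (1) Chain: if `a ∈ A`, `a ∉ B` and `b ∈ B` then `|b| < |a|` (otherwise `|a| ≤ |b|`, `a ∈ B`), so
`b ∈ A`; so `B ≤ A`.  (2) Conjugation by `g` is an order automorphism, so `cj g C` is convex.  (3) For `x ≠ 1` let `D` be the union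
of the convex subgroups which do not contain `x` (contains `⊥`; a directed union by (1), so a convex subgroup not containing `x`) and
`C` the intersection of those which contain `x` (`sInf`; `⊤` is one).  `E ∈ S` implies `E ≤ D` (if `x ∉ E`) or `C ≤ E`; `D ≤ C` by (1).
(4) If `cj g C = C` then `cj g D ≤ D`: otherwise the convex subgroup `cj g D` contains `x`, so `C ≤ cj g D`, `C = cj g⁻¹ C ≤ D`,
contradiction with `x`.  For `g = c ∈ C` this is `norm`; the same for `g⁻¹`, so `D` is normalised by `normalizer C`.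
(5) `tf`: `|a| ≤ |a ^ n|` for `n > 0`.  (6) Archimedean: for `a ∈ C`, `a ∉ D` the set of the `y` with `|y| ≤ |a| ^ n` for some `n` is a convex
subgroup (if `y, z ≤ p`, `y⁻¹, z⁻¹ ≤ p` then `y z ≤ p p` and `(y z)⁻¹ ≤ p p`) and it is not below `D`, so it contains `C`.
(7) The quotient `Q = C / D` (cosets; `D.subgroupOf C` is normal in `C`) is an archimedean totally ordered group (for `y, z ∈ C` with
`y D ≠ z D` the order of the cosets does not depend on the representatives, as `D` is convex), so it is commutative: if there is a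
least element `> 1` it is cyclic, otherwise for `a, b ∈ Q` and `1 < e` with `e * e ≤ c = a b a⁻¹ b⁻¹`, `e ^ m ≤ a < e ^ (m+1)`,
`e ^ n ≤ b < e ^ (n+1)` (`m, n ∈ ℤ`) give `a b < e ^ (m+n+2)`, `b a ≥ e ^ (m+n)`, so `c < e * e`, contradiction (replace `c` by `c⁻¹` if `c < 1`).
Mathlib (`Mathlib.Data.Real.Embedding`, `Archimedean.exists_orderAddMonoidHom_real_injective`) then gives an injective
order-preserving homomorphism `Q → ℝ`, i.e. a monotone homomorphism `φ : C → ℝ` (additive) with kernel `D`.  (If you prefer, define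
`φ` directly: `φ y = lim k_n / n` with `x ^ k_n ≤ y ^ n < x ^ (k_n + 1)`.)  (8) Let `x > 1` be in `C`, not in `D` (replace `x` by its inverse), `φ x > 0`.
For `g ∈ normalizer C` there is `λ g > 0` with `φ (g y g⁻¹) = λ g * φ y` for all `y ∈ C`: both `y ↦ φ (g y g⁻¹) / φ (g x g⁻¹)` and `y ↦ φ y / φ x` are
monotone homomorphisms with value `1` at `x`, so they agree (if `p / q < φ y / φ x` then `x ^ p ≤ y ^ q` up to `D`, so `p / q ≤` the other one, and
conversely).  `λ (g h) = λ g * λ h` (evaluate at `x`).  So for `k` in the derived subgroup of `N = normalizer C` one has `λ k = 1`, so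
`φ (k a k⁻¹) = φ a`, `a * k * a⁻¹ * k⁻¹ = a * (k * a * k⁻¹)⁻¹ ∈ ker φ = D`.  Take `N = normalizer C` in `Acts` (`relIndex_self`,
`derivedSeries N 1 = ⁅⊤, ⊤⁆`; the elements `k` of `N` with `λ k = 1` form a subgroup containing all commutators). -/
def StBO : Prop :=
  ∀ (G : Type u) [Group G] [LinearOrder G] [MulLeftMono G] [MulRightMono G],
    IChain {C : Subgroup G | (C : Set G).OrdConnected} ∧
    ∀ x : G, x ≠ 1 → ∃ D C, Jmp {C : Subgroup G | (C : Set G).OrdConnected} D C ∧
      x ∈ C ∧ x ∉ D ∧ Acts D C 1 1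

end Pool.Agent.Helper65.IC
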